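import Pool.Agent.Results.MP_7268ce_co.GrowthRateTwo

set_option autoImplicit false

open scoped Classical
open Filter Topology

namespace Pool.Agent.Results.MP_7268ce_co.SubexponentialFactor

open Pool.Agent.Results.MP_7268ce_co.GrowthRateTwo

/-! ### The upper bound -/

/-- The choice of the two parameters of the construction. -/
theorem good_explicit (d q : ℕ) (hd : 1 ≤ d) :
    ∃ m : ℕ, Good (Bool × Msg d q) d (q + 2) m ∧
      (m : ℝ) ≤ Real.exp 1 * (((q + 2 : ℕ) : ℝ) * d) ^ 2 *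
        Real.exp (2 * √(d * Real.log (((q + 2 : ℕ) : ℝ) * d) ^ 3)) * 2 ^ d := by
  have hd1 : (1 : ℝ) ≤ d := by exact_mod_cast hd
  have hd0 : (0 : ℝ) < d := by linarith
  have hq0 : (0 : ℝ) ≤ q := Nat.cast_nonneg q
  have hk : (((q + 2 : ℕ) : ℝ)) = q + 2 := by push_cast; ring
  rw [hk]
  set N : ℝ := ((q : ℝ) + 2) * d with hN
  have hN2 : 2 ≤ N := by rw [hN]; nlinarith
  have hN0 : 0 < N := by linarith
  set Λ : ℝ := Real.log N with hΛ
  have hΛ0 : 0 < Λ := Real.log_pos (by linarith)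
  have hexpΛ : Real.exp Λ = N := Real.exp_log hN0
  set K : ℕ := ⌈√(d * Λ)⌉₊ with hK
  have hs0 : 0 < √(d * Λ) := Real.sqrt_pos.2 (by positivity)
  have hK1 : √(d * Λ) ≤ K := Nat.le_ceil _
  have hK2 : (K : ℝ) ≤ √(d * Λ) + 1 := (Nat.ceil_lt_add_one hs0.le).le
  have hKpos : 0 < K := Nat.ceil_pos.2 hs0
  have hKK : d * Λ ≤ K * K := by
    calc d * Λ = √(d * Λ) * √(d * Λ) := (Real.mul_self_sqrt (by positivity)).symm
      _ ≤ K * K := mul_self_le_mul_self hs0.le hK1
  set ρ : ℝ := Real.exp (-Λ) with hρ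
  have hρ0 : 0 < ρ := Real.exp_pos _
  have hρ1 : ρ ≤ 1 := Real.exp_le_one_iff.2 (by linarith)
  have hbase : (((d - K : ℕ) : ℝ)) ≤ d * Real.exp (-(K / d)) := by
    rcases le_total K d with h | h
    · rw [Nat.cast_sub h]
      have h1 := Real.add_one_le_exp (-((K : ℝ) / d))
      have h2 : (d : ℝ) * (-((K : ℝ) / d) + 1) ≤ d * Real.exp (-(K / d)) :=
        mul_le_mul_of_nonneg_left h1 hd0.le
      have h3 : (d : ℝ) * (-((K : ℝ) / d) + 1) = d - K := by field_simp; ring
      linarith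
    · rw [Nat.sub_eq_zero_of_le h, Nat.cast_zero]
      positivity
  have hcond : (((d - K : ℕ) : ℝ)) ^ K ≤ ρ * (d : ℝ) ^ K := by
    calc (((d - K : ℕ) : ℝ)) ^ K ≤ (d * Real.exp (-(K / d))) ^ K :=
          pow_le_pow_left₀ (Nat.cast_nonneg _) hbase K
      _ = Real.exp (K * (-(K / d))) * (d : ℝ) ^ K := by
          rw [mul_pow, ← Real.exp_nat_mul]; ring
      _ ≤ ρ * (d : ℝ) ^ K := by
          refine mul_le_mul_of_nonneg_right ?_ (by positivity)
          rw [hρ, Real.exp_le_exp]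
          have : Λ ≤ K * K / d := by
            rw [le_div_iff₀ hd0]; linarith
          have h2 : (K : ℝ) * (-(K / d)) = -(K * K / d) := by ring
          rw [h2]; linarith
  obtain ⟨D, hD⟩ := exists_D (q := q) (by omega : 0 < d) ρ hρ0 hρ1 hcond
  refine ⟨_, good_main (q := q) D, ?_⟩
  set I : ℝ := ((∑ v, (Ind D q v).card : ℕ) : ℝ) with hI
  have hI0 : 0 ≤ I := Nat.cast_nonneg _
  have h1 : ((((1 + d * (q + 1)) ^ K * ∑ v, (Ind D q v).card : ℕ)) : ℝ) =
      (1 + (d : ℝ) * (q + 1)) ^ K * I := by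
    rw [Nat.cast_mul, ← hI]; push_cast; ring
  rw [h1]
  have h2 : (1 + (d : ℝ) * (q + 1)) ^ K ≤ Real.exp (K * Λ) := by
    rw [Real.exp_nat_mul, hexpΛ]
    refine pow_le_pow_left₀ (by positivity) ?_ K
    rw [hN]; nlinarith
  have h3 : I ≤ Real.exp (K * Λ) * (2 ^ d * Real.exp 1) := by
    have hρK : ρ ^ K = Real.exp (-(K * Λ)) := by
      rw [hρ, ← Real.exp_nat_mul]; congr 1; ring
    have h4 : (1 + (q : ℝ) * ρ) ^ d ≤ Real.exp 1 := by
      have h5 : (1 + (q : ℝ) * ρ) ≤ Real.exp (q * ρ) := by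
        have := Real.add_one_le_exp ((q : ℝ) * ρ)
        linarith
      calc (1 + (q : ℝ) * ρ) ^ d ≤ Real.exp (q * ρ) ^ d :=
            pow_le_pow_left₀ (by positivity) h5 d
        _ = Real.exp (d * (q * ρ)) := (Real.exp_nat_mul (q * ρ) d).symm
        _ ≤ Real.exp 1 := by
            rw [Real.exp_le_exp]
            have h6 : ρ = N⁻¹ := by rw [hρ, Real.exp_neg, hexpΛ]
            rw [h6, hN]
            have : (d : ℝ) * (q * (((q : ℝ) + 2) * d)⁻¹) = q / (q + 2) := by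
              field_simp
            rw [this, div_le_one (by positivity)]
            linarith
    have h7 : Real.exp (K * Λ) * ρ ^ K = 1 := by
      rw [hρK, ← Real.exp_add]; simp
    calc I = Real.exp (K * Λ) * (ρ ^ K * I) := by rw [← mul_assoc, h7, one_mul]
      _ ≤ Real.exp (K * Λ) * (2 ^ d * (1 + q * ρ) ^ d) :=
          mul_le_mul_of_nonneg_left hD (Real.exp_pos _).le
      _ ≤ Real.exp (K * Λ) * (2 ^ d * Real.exp 1) := by gcongr
  have h8 : Real.exp (K * Λ) * Real.exp (K * Λ) ≤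
      N ^ 2 * Real.exp (2 * √(d * Λ ^ 3)) := by
    have h9 : √(d * Λ ^ 3) = √(d * Λ) * Λ := by
      have : (d : ℝ) * Λ ^ 3 = d * Λ * Λ ^ 2 := by ring
      rw [this, Real.sqrt_mul (by positivity), Real.sqrt_sq hΛ0.le]
    have h10 : N ^ 2 = Real.exp (2 * Λ) := by
      have := Real.exp_nat_mul Λ 2
      rw [hexpΛ] at this
      rw [← this]; norm_num
    rw [h9, h10, ← Real.exp_add, ← Real.exp_add, Real.exp_le_exp]
    nlinarith
  calc (1 + (d : ℝ) * (q + 1)) ^ K * I
      ≤ Real.exp (K * Λ) * (Real.exp (K * Λ) * (2 ^ d * Real.exp 1)) := by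
        refine mul_le_mul h2 h3 hI0 (Real.exp_pos _).le
    _ = (Real.exp (K * Λ) * Real.exp (K * Λ)) * (2 ^ d * Real.exp 1) := by ring
    _ ≤ (N ^ 2 * Real.exp (2 * √(d * Λ ^ 3))) * (2 ^ d * Real.exp 1) := by gcongr
    _ = Real.exp 1 * N ^ 2 * Real.exp (2 * √(d * Λ ^ 3)) * 2 ^ d := by ring

/-- The explicit upper bound of the main theorem. -/
noncomputable def bound (d k : ℕ) : ℝ :=
  Real.exp 1 * ((k : ℝ) * d) ^ 2 * Real.exp (2 * √(d * Real.log ((k : ℝ) * d) ^ 3)) * 2 ^ d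

/-! ### The lower bound `2 ^ d` of Alon, Bohman, Holzman and Kleitman -/

/-- Exactly half of the vectors over `F_2` with sum one have sum one over a given proper
nonempty set of coordinates. -/
lemma half_count {n : ℕ} (B : Finset (Fin n)) (hB : B.Nonempty) (hB' : B ≠ Finset.univ) :
    2 * (((Finset.univ : Finset (Fin n → ZMod 2)).filter (fun r => ∑ x, r x = 1)).filter
      (fun r => ∑ x ∈ B, r x = 1)).card =
    ((Finset.univ : Finset (Fin n → ZMod 2)).filter (fun r => ∑ x, r x = 1)).card := by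
  obtain ⟨a, ha⟩ := hB
  obtain ⟨b, hb⟩ : ∃ b, b ∉ B := by
    by_contra h
    push Not at h
    exact hB' (Finset.eq_univ_iff_forall.2 h)
  set e : Fin n → ZMod 2 := fun x => (if x = a then 1 else 0) + (if x = b then 1 else 0) with he
  have h11 : (1 : ZMod 2) + 1 = 0 := by decide
  have he1 : ∑ x, e x = 0 := by
    rw [he, Finset.sum_add_distrib]
    simp [h11]
  have he2 : ∑ x ∈ B, e x = 1 := by
    rw [he, Finset.sum_add_distrib]
    simp [ha, hb]
  have hzz : ∀ z w : ZMod 2, z + w + w = z := by decide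
  have hinv : ∀ r : Fin n → ZMod 2, r + e + e = r := by
    intro r
    funext x
    exact hzz _ _
  have hne : ∀ z : ZMod 2, ¬ z = 1 ↔ z + 1 = 1 := by decide
  have hne2 : ∀ z : ZMod 2, z = 1 ↔ ¬ z + 1 = 1 := by decide
  have hsum1 : ∀ r : Fin n → ZMod 2, ∑ x, (r + e) x = ∑ x, r x := by
    intro r
    simp only [Pi.add_apply]
    rw [Finset.sum_add_distrib, he1, add_zero]
  have hsum2 : ∀ r : Fin n → ZMod 2, ∑ x ∈ B, (r + e) x = ∑ x ∈ B, r x + 1 := by
    intro r
    simp only [Pi.add_apply]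
    rw [Finset.sum_add_distrib, he2]
  set T := (Finset.univ : Finset (Fin n → ZMod 2)).filter (fun r => ∑ x, r x = 1) with hT
  have hcard : (T.filter (fun r => ∑ x ∈ B, r x = 1)).card =
      (T.filter (fun r => ¬ ∑ x ∈ B, r x = 1)).card := by
    refine Finset.card_nbij' (fun r => r + e) (fun r => r + e) ?_ ?_ ?_ ?_
    · intro r hr
      rw [Finset.mem_coe, Finset.mem_filter, hT, Finset.mem_filter] at hr ⊢
      refine ⟨⟨Finset.mem_univ _, ?_⟩, ?_⟩
      · rw [hsum1]; exact hr.1.2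
      · rw [hsum2]; exact (hne2 _).1 hr.2
    · intro r hr
      rw [Finset.mem_coe, Finset.mem_filter, hT, Finset.mem_filter] at hr ⊢
      refine ⟨⟨Finset.mem_univ _, ?_⟩, ?_⟩
      · rw [hsum1]; exact hr.1.2
      · rw [hsum2]; exact (hne _).1 hr.2
    · intro r _
      exact hinv r
    · intro r _
      exact hinv r
  have h := Finset.card_filter_add_card_filter_not (s := T) (fun r => ∑ x ∈ B, r x = 1)
  omega

/-- A partition of `[n]^d` into proper boxes has at least `2 ^ d` members. -/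
lemma two_pow_le {n d : ℕ} (hd : 1 ≤ d) (hn : 0 < n) (P : Finset (Set (Fin d → Fin n)))
    (hP : IsBoxPartition P)
    (hproper : ∀ S ∈ P, ∃ B : Fin d → Finset (Fin n),
      (∀ i, (B i).Nonempty ∧ B i ≠ Finset.univ) ∧ S = {x | ∀ i, x i ∈ B i}) :
    2 ^ d ≤ P.card := by
  choose! B hB1 hB2 using hproper
  set T := (Finset.univ : Finset (Fin n → ZMod 2)).filter (fun r => ∑ x, r x = 1) with hT
  have hcov : Fintype.piFinset (fun _ : Fin d => T) ⊆
      P.biUnion (fun S => Fintype.piFinset (fun i => T.filter (fun r => ∑ x ∈ B S i, r x = 1))) := by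
    intro R hR
    rw [Fintype.mem_piFinset] at hR
    have hR1 : ∀ i, ∑ x, R i x = 1 := fun i => by
      have := hR i
      rw [hT, Finset.mem_filter] at this
      exact this.2
    have htot : ∑ S ∈ P, ∏ i, ∑ x ∈ B S i, R i x = 1 := by
      calc ∑ S ∈ P, ∏ i, ∑ x ∈ B S i, R i x
          = ∑ S ∈ P, ∑ x : Fin d → Fin n, if x ∈ S then ∏ i, R i (x i) else 0 := by
            refine Finset.sum_congr rfl fun S hS => ?_
            rw [Finset.prod_univ_sum, ← Finset.sum_filter]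
            refine Finset.sum_congr ?_ fun _ _ => rfl
            ext x
            rw [Fintype.mem_piFinset, Finset.mem_filter]
            constructor
            · intro h
              refine ⟨Finset.mem_univ _, ?_⟩
              rw [hB2 S hS]
              exact h
            · rintro ⟨-, h⟩
              rw [hB2 S hS] at h
              exact h
        _ = ∑ x : Fin d → Fin n, ∏ i, R i (x i) := by
            rw [Finset.sum_comm]
            refine Finset.sum_congr rfl fun x _ => ?_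
            obtain ⟨S, ⟨hS, hxS⟩, huniq⟩ := hP.2 x
            rw [Finset.sum_eq_single_of_mem S hS, if_pos hxS]
            intro S' hS' hne
            rw [if_neg]
            intro hx'
            exact hne (huniq S' ⟨hS', hx'⟩)
        _ = ∏ i, ∑ x, R i x := by
            rw [Finset.prod_univ_sum, Fintype.piFinset_univ]
        _ = 1 := by simp [hR1]
    have hex : ∃ S ∈ P, ∏ i, ∑ x ∈ B S i, R i x ≠ 0 := by
      by_contra h
      push Not at h
      rw [Finset.sum_eq_zero h] at htot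
      exact zero_ne_one htot
    obtain ⟨S, hS, hne⟩ := hex
    rw [Finset.mem_biUnion]
    refine ⟨S, hS, ?_⟩
    rw [Fintype.mem_piFinset]
    intro i
    rw [Finset.mem_filter]
    refine ⟨hR i, ?_⟩
    have h1 := (Finset.prod_ne_zero_iff.1 hne) i (Finset.mem_univ i)
    have h2 : ∀ z : ZMod 2, z ≠ 0 → z = 1 := by decide
    exact h2 _ h1
  have hhalf : ∀ S ∈ P, ∀ i, 2 * (T.filter (fun r => ∑ x ∈ B S i, r x = 1)).card = T.card :=
    fun S hS i => half_count (B S i) (hB1 S hS i).1 (hB1 S hS i).2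
  obtain ⟨S₀, ⟨hS₀, -⟩, -⟩ := hP.2 (fun _ => ⟨0, hn⟩)
  set t := (T.filter (fun r => ∑ x ∈ B S₀ ⟨0, hd⟩, r x = 1)).card with ht
  have ht2 : 2 * t = T.card := hhalf S₀ hS₀ ⟨0, hd⟩
  have hTpos : 0 < T.card := by
    rw [Finset.card_pos]
    refine ⟨Pi.single ⟨0, hn⟩ 1, ?_⟩
    rw [hT, Finset.mem_filter]
    refine ⟨Finset.mem_univ _, ?_⟩
    simp
  have htpos : 0 < t := by omega
  have hle := Finset.card_le_card hcov
  have hle2 : T.card ^ d ≤ P.card * t ^ d := by
    calc T.card ^ d = (Fintype.piFinset (fun _ : Fin d => T)).card := by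
          rw [Fintype.card_piFinset, Finset.prod_const, Finset.card_univ, Fintype.card_fin]
      _ ≤ _ := hle
      _ ≤ ∑ S ∈ P, (Fintype.piFinset
            (fun i => T.filter (fun r => ∑ x ∈ B S i, r x = 1))).card := Finset.card_biUnion_le
      _ = ∑ _S ∈ P, t ^ d := by
          refine Finset.sum_congr rfl fun S hS => ?_
          rw [Fintype.card_piFinset]
          have : ∀ i : Fin d, (T.filter (fun r => ∑ x ∈ B S i, r x = 1)).card = t := by
            intro i
            have := hhalf S hS i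
            omega
          rw [Finset.prod_congr rfl fun i _ => this i, Finset.prod_const, Finset.card_univ,
            Fintype.card_fin]
      _ = P.card * t ^ d := by rw [Finset.sum_const, smul_eq_mul]
  rw [← ht2, mul_pow] at hle2
  exact Nat.le_of_mul_le_mul_right hle2 (pow_pos htpos d)

lemma lower {n d k : ℕ} (hd : 1 ≤ d) (hk : 2 ≤ k) (hn : k ≤ n) : 2 ^ d ≤ pBox n d k := by
  obtain ⟨P, hc, hP, hpier⟩ := pBox_attained n d k hn
  rw [← hc]
  refine two_pow_le hd (by omega) P hP ?_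
  intro S hS
  obtain ⟨B, hB, hSB⟩ := hP.1 S hS
  refine ⟨fun i => Finset.univ.filter (fun a => a ∈ B i), fun i => ⟨?_, ?_⟩, ?_⟩
  · obtain ⟨a, ha⟩ := hB i
    exact ⟨a, by simp [ha]⟩
  · intro huniv
    have hall : ∀ a, a ∈ B i := by
      intro a
      have h0 : a ∈ (Finset.univ : Finset (Fin n)) := Finset.mem_univ a
      rw [← huniv] at h0
      exact (Finset.mem_filter.1 h0).2
    choose c hcB using hB
    have hsub : P.filter (fun S' => (S' ∩ line i c).Nonempty) ⊆ {S} := by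
      intro S' hS'
      rw [Finset.mem_filter] at hS'
      obtain ⟨hS'P, x, hxS', hxl⟩ := hS'
      have hxS : x ∈ S := by
        rw [hSB]
        intro j
        by_cases hj : j = i
        · rw [hj]; exact hall _
        · rw [hxl j hj]; exact hcB j
      obtain ⟨U, -, hU⟩ := hP.2 x
      rw [Finset.mem_singleton, hU S' ⟨hS'P, hxS'⟩, hU S ⟨hS, hxS⟩]
    have h1 := Finset.card_le_card hsub
    have h2 := hpier i c
    rw [Finset.card_singleton] at h1
    omega
  · rw [hSB]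
    ext x
    simp

/-! ### The main theorem -/

lemma upper {d k : ℕ} (hd : 1 ≤ d) (hk : 2 ≤ k) :
    (∀ n : ℕ, 2 * (2 ^ d * (k - 2) + 1) ≤ n → (pBox n d k : ℝ) ≤ bound d k) ∧
    ∃ L : ℝ, Tendsto (fun n : ℕ => (pBox n d k : ℝ)) atTop (𝓝 L) ∧ L ≤ bound d k := by
  obtain ⟨q, rfl⟩ : ∃ q, k = q + 2 := ⟨k - 2, by omega⟩
  obtain ⟨m, hm, hmb⟩ := good_explicit d q hd
  refine ⟨?_, ?_⟩
  · intro n hn
    have hcard : Fintype.card (Bool × Msg d q) ≤ n := by
      refine le_trans (le_of_eq ?_) hn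
      simp [Msg, Cell]
    have hne : Nonempty (Bool × Msg d q) := ⟨(true, none)⟩
    obtain ⟨φ, hφ⟩ := exists_surj (Bool × Msg d q) n hcard
    have h1 := pBox_le (good_of_surj φ hφ hm)
    refine le_trans ?_ hmb
    exact_mod_cast h1
  · have hne : Nonempty (Bool × Msg d q) := ⟨(true, none)⟩
    obtain ⟨L, hL1, hL2⟩ := limit_of_good hm
    exact ⟨L, hL1, hL2.trans hmb⟩

lemma bound_eq {d k : ℕ} (hd : 1 ≤ d) (hk : 2 ≤ k) :
    bound d k = Real.exp (1 + 2 * Real.log ((k : ℝ) * d) +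
      2 * √(d * Real.log ((k : ℝ) * d) ^ 3)) * 2 ^ d := by
  have hN : (0 : ℝ) < (k : ℝ) * d := by
    have h1 : (0 : ℝ) < k := by exact_mod_cast (by omega : 0 < k)
    have h2 : (0 : ℝ) < d := by exact_mod_cast (by omega : 0 < d)
    positivity
  unfold bound
  rw [Real.exp_add, Real.exp_add]
  have h10 : ((k : ℝ) * d) ^ 2 = Real.exp (2 * Real.log ((k : ℝ) * d)) := by
    have := Real.exp_nat_mul (Real.log ((k : ℝ) * d)) 2
    rw [Real.exp_log hN] at this
    rw [← this]; norm_num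
  rw [h10]

/-- The root of the upper bound, up to an error which tends to zero. -/
lemma bound_le {d k : ℕ} (hd : 1 ≤ d) (hk : 2 ≤ k) :
    bound d k ≤ (2 * Real.exp (3 / d + 2 * (Real.log ((k : ℝ) * d) ^ 3 / d) +
      2 * √(Real.log ((k : ℝ) * d) ^ 3 / d))) ^ d := by
  have hd0 : (0 : ℝ) < d := by exact_mod_cast (by omega : 0 < d)
  have hk2 : (2 : ℝ) ≤ k := by exact_mod_cast hk
  have hd1 : (1 : ℝ) ≤ d := by exact_mod_cast hd
  have hl0 : 0 ≤ Real.log ((k : ℝ) * d) := Real.log_nonneg (by nlinarith)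
  set l := Real.log ((k : ℝ) * d) with hl
  rw [bound_eq hd hk, mul_pow, ← Real.exp_nat_mul, mul_comm]
  refine mul_le_mul_of_nonneg_left ?_ (by positivity)
  rw [Real.exp_le_exp]
  have h1 : (d : ℝ) * (3 / d + 2 * (l ^ 3 / d) + 2 * √(l ^ 3 / d)) =
      3 + 2 * l ^ 3 + 2 * (d * √(l ^ 3 / d)) := by
    field_simp
  have h2 : (d : ℝ) * √(l ^ 3 / d) = √(d * l ^ 3) := by
    have h3 : (d : ℝ) * l ^ 3 = d ^ 2 * (l ^ 3 / d) := by field_simp
    rw [h3, Real.sqrt_mul (by positivity), Real.sqrt_sq hd0.le]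
  rw [h1, h2, ← hl]
  have h4 : l ≤ 1 + l ^ 3 := by
    rcases le_total l 1 with h | h
    · have : 0 ≤ l ^ 3 := by positivity
      linarith
    · have h5 : l * 1 ≤ l * l ^ 2 := mul_le_mul_of_nonneg_left (by nlinarith) hl0
      nlinarith
  linarith

lemma tendsto_cube {κ : ℕ → ℕ} (hκ : ∀ d, 2 ≤ κ d)
    (h : Tendsto (fun d : ℕ => Real.log (κ d) ^ 3 / (d : ℝ)) atTop (𝓝 0)) :
    Tendsto (fun d : ℕ => Real.log ((κ d : ℝ) * d) ^ 3 / (d : ℝ)) atTop (𝓝 0) := by
  have hlog : Tendsto (fun d : ℕ => Real.log (d : ℝ) ^ 3 / (d : ℝ)) atTop (𝓝 0) := by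
    have h1 := (Real.isLittleO_pow_log_id_atTop (n := 3)).tendsto_div_nhds_zero
    exact h1.comp tendsto_natCast_atTop_atTop
  have hsum : Tendsto (fun d : ℕ => 4 * (Real.log (κ d) ^ 3 / (d : ℝ)) +
      4 * (Real.log (d : ℝ) ^ 3 / (d : ℝ))) atTop (𝓝 0) := by
    have := (h.const_mul 4).add (hlog.const_mul 4)
    simpa using this
  refine squeeze_zero' ?_ ?_ hsum
  · filter_upwards [eventually_ge_atTop 1] with d hd
    have hk2 : (2 : ℝ) ≤ κ d := by exact_mod_cast hκ d
    have hd1 : (1 : ℝ) ≤ d := by exact_mod_cast hd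
    have hl0 : 0 ≤ Real.log ((κ d : ℝ) * d) := Real.log_nonneg (by nlinarith)
    positivity
  · filter_upwards [eventually_ge_atTop 1] with d hd
    have hk2 : (2 : ℝ) ≤ κ d := by exact_mod_cast hκ d
    have hd1 : (1 : ℝ) ≤ d := by exact_mod_cast hd
    have ha : 0 ≤ Real.log (κ d : ℝ) := Real.log_nonneg (by linarith)
    have hb : 0 ≤ Real.log (d : ℝ) := Real.log_nonneg hd1
    rw [Real.log_mul (by linarith) (by linarith), ← mul_div_assoc, ← mul_div_assoc, ← add_div]
    refine div_le_div_of_nonneg_right ?_ (by linarith)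
    nlinarith [mul_nonneg (add_nonneg ha hb) (sq_nonneg (Real.log (κ d : ℝ) - Real.log (d : ℝ)))]

/-- **Theorem.** `2 ^ d ≤ p_box(d,k) ≤ e (kd)² exp (2 √(d log³ (kd))) 2 ^ d` for all `d ≥ 1` and
`k ≥ 2`; the upper bound holds for `p_box(n,d,k)` as soon as `n ≥ 2 ^ (d + 1) (k - 2) + 2`.  So the
growth rate is `2`, for every fixed `k` and even if `k` grows with `d` as long as
`log k = o(d ^ (1/3))`. -/
theorem result :
    -- (1) explicit two-sided bounds for all dimensions and all `k`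
    (∀ d k : ℕ, 1 ≤ d → 2 ≤ k →
      (∀ n : ℕ, k ≤ n → 2 ^ d ≤ pBox n d k) ∧
      (∀ n : ℕ, 2 * (2 ^ d * (k - 2) + 1) ≤ n → (pBox n d k : ℝ) ≤
        Real.exp 1 * ((k : ℝ) * d) ^ 2 *
          Real.exp (2 * √(d * Real.log ((k : ℝ) * d) ^ 3)) * 2 ^ d) ∧
      ∃ L : ℝ, Tendsto (fun n : ℕ => (pBox n d k : ℝ)) atTop (𝓝 L) ∧ 2 ^ d ≤ L ∧
        L ≤ Real.exp 1 * ((k : ℝ) * d) ^ 2 *
          Real.exp (2 * √(d * Real.log ((k : ℝ) * d) ^ 3)) * 2 ^ d) ∧
    -- (2) the growth rate is `2`, even if `k` grows with the dimension, `log k = o(d ^ (1/3))`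
    (∀ κ : ℕ → ℕ, (∀ d, 2 ≤ κ d) →
      Tendsto (fun d : ℕ => Real.log (κ d) ^ 3 / (d : ℝ)) atTop (𝓝 0) →
      ∃ L : ℕ → ℝ, (∀ d, 1 ≤ d →
          Tendsto (fun n : ℕ => (pBox n d (κ d) : ℝ)) atTop (𝓝 (L d))) ∧
        Tendsto (fun d : ℕ => L d ^ (1 / (d : ℝ))) atTop (𝓝 2)) ∧
    -- (3) the answer to the question
    (∀ k : ℕ, 3 ≤ k → ∀ ε : ℝ, 0 < ε → ∃ d₀ : ℕ, ∀ d : ℕ, d₀ ≤ d → ∃ L : ℝ,
      Tendsto (fun n : ℕ => (pBox n d k : ℝ)) atTop (𝓝 L) ∧ L < (2 + ε) ^ d) := by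
  have main : ∀ d k : ℕ, 1 ≤ d → 2 ≤ k →
      ∃ L : ℝ, Tendsto (fun n : ℕ => (pBox n d k : ℝ)) atTop (𝓝 L) ∧ 2 ^ d ≤ L ∧
        L ≤ bound d k := by
    intro d k hd hk
    obtain ⟨L, hL1, hL2⟩ := (upper hd hk).2
    refine ⟨L, hL1, ?_, hL2⟩
    refine ge_of_tendsto hL1 ?_
    filter_upwards [eventually_ge_atTop k] with n hn
    exact_mod_cast lower hd hk hn
  refine ⟨?_, ?_, GrowthRateTwo.result⟩
  · intro d k hd hk
    exact ⟨fun n hn => lower hd hk hn, (upper hd hk).1, main d k hd hk⟩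
  · intro κ hκ h
    have hL : ∀ d : ℕ, ∃ L : ℝ, 1 ≤ d →
        (Tendsto (fun n : ℕ => (pBox n d (κ d) : ℝ)) atTop (𝓝 L) ∧ 2 ^ d ≤ L ∧
          L ≤ bound d (κ d)) := by
      intro d
      by_cases hd : 1 ≤ d
      · obtain ⟨L, hL⟩ := main d (κ d) hd (hκ d)
        exact ⟨L, fun _ => hL⟩
      · exact ⟨0, fun h => absurd h hd⟩
    choose L hL using hL
    refine ⟨L, fun d hd => (hL d hd).1, ?_⟩
    have hc := tendsto_cube hκ h
    have hs : Tendsto (fun d : ℕ => √(Real.log ((κ d : ℝ) * d) ^ 3 / (d : ℝ))) atTop (𝓝 0) := by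
      have := (Real.continuous_sqrt.tendsto 0).comp hc
      rw [Real.sqrt_zero] at this
      exact this
    have h3 : Tendsto (fun d : ℕ => (3 : ℝ) / (d : ℝ)) atTop (𝓝 0) :=
      tendsto_const_div_atTop_nhds_zero_nat 3
    have hup : Tendsto (fun d : ℕ => 2 * Real.exp (3 / d +
        2 * (Real.log ((κ d : ℝ) * d) ^ 3 / d) +
        2 * √(Real.log ((κ d : ℝ) * d) ^ 3 / d))) atTop (𝓝 2) := by
      have h4 := (h3.add (hc.const_mul 2)).add (hs.const_mul 2)
      have h5 := ((Real.continuous_exp.tendsto _).comp h4).const_mul 2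
      simpa using h5
    refine tendsto_of_tendsto_of_tendsto_of_le_of_le' tendsto_const_nhds hup ?_ ?_
    · filter_upwards [eventually_ge_atTop 1] with d hd
      obtain ⟨-, h1, -⟩ := hL d hd
      have h2 : ((2 : ℝ) ^ d) ^ (1 / (d : ℝ)) = 2 := by
        rw [one_div]
        exact Real.pow_rpow_inv_natCast (by norm_num) (by omega)
      calc (2 : ℝ) = ((2 : ℝ) ^ d) ^ (1 / (d : ℝ)) := h2.symm
        _ ≤ L d ^ (1 / (d : ℝ)) := Real.rpow_le_rpow (by positivity) h1 (by positivity)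
    · filter_upwards [eventually_ge_atTop 1] with d hd
      obtain ⟨-, h1, h2⟩ := hL d hd
      have h3 := h2.trans (bound_le hd (hκ d))
      have h4 : (0 : ℝ) ≤ L d := le_trans (by positivity) h1
      calc L d ^ (1 / (d : ℝ)) ≤ _ := Real.rpow_le_rpow h4 h3 (by positivity)
        _ = _ := by
          rw [one_div]
          exact Real.pow_rpow_inv_natCast (by positivity) (by omega)

end Pool.Agent.Results.MP_7268ce_co.SubexponentialFactor
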